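import Mathlib
import Pool.Agent.Y682.Stab
import Pool.Agent.Y682.Rst

/-!
# The 2-primary part of the Tate–Shafarevich group over a field generated by square roots

If the 2-primary parts of the Tate–Shafarevich groups over `ℚ` of the twists of `E` by the products
of the `d i` are zero, then the 2-primary part of that of `E` over `F = ℚ(√d_i)` is killed by `2 ^ n`.
-/

set_option autoImplicit false
set_option linter.unusedSectionVars false

attribute [-instance] DivisionRing.toRatAlgebra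

namespace Pool.Agent.Run7.h424.XK

open WeierstrassCurve NumberField
open Pool.Agent.TH841.NF
open Pool.Agent.Y682 (rsS coS coS_rsS exists_e)

/-- the two definitions of the Tate-Shafarevich group over `ℚ` -/
theorem sha_cmp {E : WeierstrassCurve ℚ}
    (h : ∀ (k : ℕ) (x : Pool.Agent.TH841.NF.D.Sha E), 2 ^ k • x = 0 → x = 0) (k : ℕ)
    (y : Pool.Agent.TH841.SH.D.Sha E) (hy : 2 ^ k • y = 0) : y = 0 := by
  obtain ⟨e⟩ := exists_e ℚ
  have hW : Sc (algebraMap ℚ ℚ) 1 E E := by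
    refine ⟨one_ne_zero, ?_, ?_, ?_, ?_, ?_⟩ <;> simp
  have h1 : rsS hW e y = 0 := h k _ (by rw [← map_nsmul, hy, map_zero])
  have h2 := coS_rsS hW e y
  rw [h1, map_zero, Module.finrank_self, one_smul] at h2
  exact h2.symm

section

variable {F : Type} [Field F] [NumberField F] [Algebra ℚ F] {E : WeierstrassCurve ℚ}
  {W : WeierstrassCurve F} (hW : Sc (algebraMap ℚ F) 1 E W) (E1 : E.a₁ = 0) (E3 : E.a₃ = 0)
  {n : ℕ} {r : Fin n → F} {d : Fin n → ℚ} (hr : ∀ i, r i ^ 2 = algebraMap ℚ F (d i))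
  (hd : ∀ i, d i ≠ 0) (hgen : IntermediateField.adjoin ℚ (Set.range r) = ⊤)

include hW E1 E3 hr hd hgen in
theorem sha_mq' (h : ∀ (T : Finset (Fin n)) (k : ℕ)
      (x : Pool.Agent.TH841.SH.D.Sha (tw (∏ i ∈ T, d i) E)), 2 ^ k • x = 0 → x = 0) (k : ℕ)
    (x : Pool.Agent.TH841.NF.D.Sha W) (hx : 2 ^ k • x = 0) : (2 ^ n : ℕ) • x = 0 := by
  obtain ⟨e⟩ := exists_e F
  exact thS_ker hW E1 E3 e hr hd hgen x fun T => h T k _ (by rw [← map_nsmul, hx, map_zero])

include hW E1 E3 hr hd hgen in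
/-- **the 2-primary part over a field generated by square roots** -/
theorem sha_mq (h : ∀ (T : Finset (Fin n)) (k : ℕ)
      (x : Pool.Agent.TH841.NF.D.Sha (tw (∏ i ∈ T, d i) E)), 2 ^ k • x = 0 → x = 0) (k : ℕ)
    (x : Pool.Agent.TH841.NF.D.Sha W) (hx : 2 ^ k • x = 0) : (2 ^ n : ℕ) • x = 0 :=
  sha_mq' hW E1 E3 hr hd hgen (fun T k x hx => sha_cmp (h T) k x hx) k x hx

end

end Pool.Agent.Run7.h424.XK
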