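import Mathlib
import Pool.Agent.Run7.h135.XK.Stm
import Pool.Agent.Y682.Stab
import Pool.Agent.Y682.CorK

/-!
# Project XK: the piece COR

The corestriction of the cocycle of the pair `(α, β)` is the cocycle of the pair of the norms.
-/

set_option autoImplicit false
set_option linter.unusedSectionVars false

attribute [-instance] DivisionRing.toRatAlgebra

open scoped Classical

namespace Pool.Agent.Run7.h424.XK

open WeierstrassCurve NumberField
open Pool.Agent.TH841.NF
open Pool.Agent.TH841.SH.D (Pt act Gal Coch IsCoc IsCob LocTriv cob)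
open Pool.Agent.Y682 (exists_e em HF mem_HF co co_sha prod_norm)
open _root_.Run7.h135.XK

theorem fl_iff {k : Type} [Field k] {a : k} {s : AlgebraicClosure k}
    (hs : s ^ 2 = algebraMap k (AlgebraicClosure k) a) (σ : Gal k) : Fl a σ ↔ σ s ≠ s := by
  constructor
  · rintro ⟨t, ht, hσ⟩ h
    rcases sq_eq_sq_iff_eq_or_eq_neg.1 (ht.trans hs.symm) with rfl | rfl
    · exact hσ h
    · exact hσ (by rw [map_neg, h])
  · intro h
    exact ⟨s, hs, h⟩

section par

variable {F : Type} [Field F] [NumberField F] [Algebra ℚ F] (e : AlgebraicClosure F ≃+* Qb)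

/-- the element of the subgroup -/
noncomputable def hq (g : Gal ℚ) (q : Gal ℚ ⧸ HF e) : Gal ℚ :=
  (sec (HF e) (g • q))⁻¹ * g * sec (HF e) q

theorem hq_mem (g : Gal ℚ) (q : Gal ℚ ⧸ HF e) : hq e g q ∈ HF e :=
  mem_H (s := sec (HF e)) (sec_spec (HF e)) g q

/-- the number of the cosets with a sign -/
noncomputable def cnt (α : F) (g : Gal ℚ) : ℕ :=
  (Finset.univ.filter fun q : Gal ℚ ⧸ HF e => Fl α (cF e (hq e g q))).card

theorem fl_cF {α : F} {x : Qb} (hx : x ^ 2 = em e α) {h : Gal ℚ} (hh : h ∈ HF e) :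
    Fl α (cF e h) ↔ h x ≠ x := by
  have hs : (e.symm x) ^ 2 = algebraMap F (AlgebraicClosure F) α := by
    apply e.injective
    rw [map_pow, RingEquiv.apply_symm_apply]
    exact hx
  rw [fl_iff hs, not_iff_not, ← e.injective.eq_iff, e_cF e hh, RingEquiv.apply_symm_apply]

theorem act_sec {α : F} {x : Qb} (hx : x ^ 2 = em e α) (g : Gal ℚ) (q : Gal ℚ ⧸ HF e) :
    g (sec (HF e) q x) =
      (if Fl α (cF e (hq e g q)) then -1 else 1) * sec (HF e) (g • q) x := by
  have h1 : g (sec (HF e) q x) = sec (HF e) (g • q) (hq e g q x) := by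
    change _ = sec (HF e) (g • q) ((sec (HF e) (g • q)).symm (g (sec (HF e) q x)))
    rw [AlgEquiv.apply_symm_apply]
  have h2 : (hq e g q x) ^ 2 = x ^ 2 := by
    rw [← map_pow, hx]
    exact hq_mem e g q α
  have h3 := fl_cF e hx (hq_mem e g q)
  rw [h1]
  rcases sq_eq_sq_iff_eq_or_eq_neg.1 h2 with h4 | h4
  · rw [if_neg (by rw [h3, not_not]; exact h4), one_mul, h4]
  · by_cases h5 : Fl α (cF e (hq e g q))
    · rw [if_pos h5, h4, map_neg, neg_one_mul]
    · rw [if_neg h5, one_mul, of_not_not (fun h6 => h5 (h3.2 h6))]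

/-- the product of the conjugates of the square root -/
noncomputable def rho (x : Qb) : Qb := ∏ q : Gal ℚ ⧸ HF e, sec (HF e) q x

theorem rho_sq {α : F} {x : Qb} (hx : x ^ 2 = em e α) :
    rho e x ^ 2 = algebraMap ℚ Qb (Algebra.norm ℚ α) := by
  unfold rho
  rw [← prod_norm e α, ← Finset.prod_pow]
  refine Finset.prod_congr rfl fun q _ => ?_
  rw [← map_pow, hx]

theorem act_rho {α : F} {x : Qb} (hx : x ^ 2 = em e α) (g : Gal ℚ) :
    g (rho e x) = (-1) ^ cnt e α g * rho e x := by
  unfold rho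
  rw [map_prod, Finset.prod_congr rfl fun q _ => act_sec e hx g q, Finset.prod_mul_distrib]
  congr 1
  · rw [Finset.prod_ite, Finset.prod_const, Finset.prod_const_one, mul_one]
    rfl
  · exact Equiv.prod_comp (MulAction.toPerm g : Equiv.Perm (Gal ℚ ⧸ HF e))
      (fun q : Gal ℚ ⧸ HF e => sec (HF e) q x)

theorem fl_norm {α : F} (hα : α ≠ 0) (g : Gal ℚ) :
    Fl (Algebra.norm ℚ α) g ↔ Odd (cnt e α g) := by
  obtain ⟨x, hx⟩ := IsAlgClosed.exists_pow_nat_eq (em e α) (n := 2) (by norm_num)
  rw [fl_iff (rho_sq e hx), act_rho e hx]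
  have hx0 : x ≠ 0 := by
    rintro rfl
    apply hα
    apply (em e).injective
    rw [← hx, map_zero]
    norm_num
  have h0 : rho e x ≠ 0 := Finset.prod_ne_zero_iff.2 fun q _ => by
    rw [Ne, map_eq_zero_iff _ (sec (HF e) q).injective]
    exact hx0
  rcases Nat.even_or_odd (cnt e α g) with h | h
  · rw [h.neg_one_pow, one_mul]
    exact ⟨fun h1 => absurd rfl h1, fun h1 => absurd h1 (Nat.not_odd_iff_even.2 h)⟩
  · rw [h.neg_one_pow, neg_one_mul]
    refine ⟨fun _ => h, fun _ h1 => h0 ?_⟩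
    have h2 : (2 : Qb) * rho e x = 0 := by linear_combination -h1
    exact (mul_eq_zero.1 h2).resolve_left two_ne_zero

end par

section pts

variable {k : Type} [Field k] {L : Type} [Field L] [Algebra k L]

theorem tp_pos {c : k} {W : WeierstrassCurve k}
    (h : (W.baseChange L).toAffine.Nonsingular (algebraMap k L c) 0) :
    tp W L c = (Affine.Point.some (algebraMap k L c) 0 h : (W.baseChange L).toAffine.Point) :=
  dif_pos h

theorem tp_neg {c : k} {W : WeierstrassCurve k}
    (h : ¬ (W.baseChange L).toAffine.Nonsingular (algebraMap k L c) 0) : tp W L c = 0 :=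
  dif_neg h

/-- the points of order two -/
theorem tp_dbl (c : k) (W : WeierstrassCurve k) (h1 : W.a₁ = 0) (h3 : W.a₃ = 0) :
    tp W L c + tp W L c = 0 := by
  by_cases h : (W.baseChange L).toAffine.Nonsingular (algebraMap k L c) 0
  · rw [tp_pos h]
    have e1 : (W.baseChange L).a₁ = 0 := by
      change algebraMap k L W.a₁ = 0
      rw [h1, map_zero]
    have e3 : (W.baseChange L).a₃ = 0 := by
      change algebraMap k L W.a₃ = 0
      rw [h3, map_zero]
    have h4 : (0 : L) = (W.baseChange L).toAffine.negY (algebraMap k L c) 0 := by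
      rw [Affine.negY, e1, e3]
      ring
    exact @Affine.Point.add_of_Y_eq L _ (W.baseChange L).toAffine (Classical.decEq L) _ _ _ _
      h h rfl h4
  · rw [tp_neg h]
    exact add_zero _

theorem nsmul_tp (c : k) (W : WeierstrassCurve k) (h1 : W.a₁ = 0) (h3 : W.a₃ = 0) (n : ℕ) :
    n • tp W L c = if Odd n then tp W L c else 0 := by
  have h2 := tp_dbl (L := L) c W h1 h3
  rcases Nat.even_or_odd n with h | h
  · rw [if_neg (Nat.not_odd_iff_even.2 h)]
    obtain ⟨m, rfl⟩ := h
    rw [add_smul, ← smul_add, h2, smul_zero]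
  · rw [if_pos h]
    obtain ⟨m, rfl⟩ := h
    rw [add_smul, one_smul, two_mul, add_smul, ← smul_add, h2, smul_zero, zero_add]

theorem act_tp (c : k) (W : WeierstrassCurve k) {L' : Type} [Field L'] [Algebra k L']
    (φ : L →ₐ[k] L') : act W φ (tp W L c) = tp W L' c := by
  have key : (W.baseChange L).toAffine.Nonsingular (algebraMap k L c) 0 ↔
      (W.baseChange L').toAffine.Nonsingular (algebraMap k L' c) 0 := by
    have := Affine.baseChange_nonsingular W (f := φ) φ.injective (algebraMap k L c) 0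
    rw [AlgHom.commutes, map_zero] at this
    exact this.symm
  by_cases h : (W.baseChange L).toAffine.Nonsingular (algebraMap k L c) 0
  · rw [tp_pos h, tp_pos (key.1 h), act_some']
    exact pt_ext _ _ (AlgHom.commutes φ c) (map_zero φ)
  · rw [tp_neg h, tp_neg fun h' => h (key.2 h'), map_zero]

end pts

section cor

variable {F : Type} [Field F] [NumberField F] [Algebra ℚ F] {E : WeierstrassCurve ℚ}
  {W : WeierstrassCurve F} (hW : Sc (algebraMap ℚ F) 1 E W) (e : AlgebraicClosure F ≃+* Qb)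

theorem tm_tp (c : ℚ) : tm (sc_any hW (e : AlgebraicClosure F →+* Qb))
    (tp W (AlgebraicClosure F) (algebraMap ℚ F c)) = tp E Qb c := by
  have S : Sc (e : AlgebraicClosure F →+* Qb) 1 (W.baseChange (AlgebraicClosure F))
    (E.baseChange Qb) := sc_any hW _
  have hc : (e : AlgebraicClosure F →+* Qb)
      (algebraMap F (AlgebraicClosure F) (algebraMap ℚ F c)) = algebraMap ℚ Qb c :=
    rat_hom (((e : AlgebraicClosure F →+* Qb).comp (algebraMap F _)).comp (algebraMap ℚ F)) c
  have key : (W.baseChange (AlgebraicClosure F)).toAffine.Nonsingular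
      (algebraMap F (AlgebraicClosure F) (algebraMap ℚ F c)) 0 ↔
      (E.baseChange Qb).toAffine.Nonsingular (algebraMap ℚ Qb c) 0 := by
    have := ns_iff S (algebraMap F (AlgebraicClosure F) (algebraMap ℚ F c)) 0
    rw [hc, map_zero, one_pow, mul_one, zero_mul] at this
    exact this.symm
  by_cases h : (W.baseChange (AlgebraicClosure F)).toAffine.Nonsingular
      (algebraMap F (AlgebraicClosure F) (algebraMap ℚ F c)) 0
  · rw [tp_pos h, tp_pos (key.1 h), tm_some]
    refine pt_ext _ _ ?_ ?_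
    · rw [hc, one_pow, mul_one]
    · rw [map_zero, zero_mul]
  · rw [tp_neg h, tp_neg fun h' => h (key.2 h'), map_zero]

/-- **the corestriction of the cocycle of a pair** -/
theorem co_Cc (E1 : E.a₁ = 0) (E3 : E.a₃ = 0) (c0 c1 : ℚ) {α β : F} (hα : α ≠ 0) (hβ : β ≠ 0) :
    co hW e (Cc W (algebraMap ℚ F c0) (algebraMap ℚ F c1) α β) =
      Cc E c0 c1 (Algebra.norm ℚ α) (Algebra.norm ℚ β) := by
  funext g
  unfold co cor
  have h1 : ∀ q : Gal ℚ ⧸ HF e, (1 : Gal ℚ →* ℤ) (sec (HF e) (g • q)) •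
      aG E (sec (HF e) (g • q)) (tr hW e (Cc W (algebraMap ℚ F c0) (algebraMap ℚ F c1) α β)
        ((sec (HF e) (g • q))⁻¹ * g * sec (HF e) q)) =
      (if Fl α (cF e (hq e g q)) then tp E Qb c1 else 0) +
        (if Fl β (cF e (hq e g q)) then tp E Qb c0 else 0) := by
    intro q
    rw [show (1 : Gal ℚ →* ℤ) (sec (HF e) (g • q)) = 1 from rfl, one_smul]
    change act E (sec (HF e) (g • q)).toAlgHom (tm (sc_any hW (e : AlgebraicClosure F →+* Qb))
      ((if Fl α (cF e (hq e g q)) then tp W (AlgebraicClosure F) (algebraMap ℚ F c1) else 0) +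
        (if Fl β (cF e (hq e g q)) then tp W (AlgebraicClosure F) (algebraMap ℚ F c0) else 0))) = _
    rw [map_add, map_add]
    congr 1
    · split_ifs
      · rw [tm_tp hW e, act_tp]
      · rw [map_zero, map_zero]
    · split_ifs
      · rw [tm_tp hW e, act_tp]
      · rw [map_zero, map_zero]
  rw [Finset.sum_congr rfl fun q _ => h1 q, Finset.sum_add_distrib]
  unfold Cc
  congr 1
  · rw [Finset.sum_ite, Finset.sum_const, Finset.sum_const_zero, add_zero]
    change cnt e α g • tp E Qb c1 = _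
    rw [nsmul_tp c1 E E1 E3]
    exact if_congr (fl_norm e hα g).symm rfl rfl
  · rw [Finset.sum_ite, Finset.sum_const, Finset.sum_const_zero, add_zero]
    change cnt e β g • tp E Qb c0 = _
    rw [nsmul_tp c0 E E1 E3]
    exact if_congr (fl_norm e hβ g).symm rfl rfl

end cor

/-- the norm -/
theorem norm_QK {K : Type} [Field K] [NumberField K] [Algebra ℚ K] {n : ℕ} {r : K} (hn : n ≠ 0)
    (h : QK K n r) (u v : ℚ) : Algebra.norm ℚ ((u : K) + v * r) = u ^ 2 + n * v ^ 2 := by
  have hcast : ∀ z : ℚ, algebraMap ℚ K z = (z : K) := fun z => eq_ratCast (algebraMap ℚ K) z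
  have hli : LinearIndependent ℚ ![(1 : K), r] := by
    rw [LinearIndependent.pair_iff]
    intro s t hst
    rw [Algebra.smul_def, Algebra.smul_def, hcast, hcast, mul_one] at hst
    have ht : t = 0 := by
      by_contra ht
      have htK : (t : K) ≠ 0 := Rat.cast_ne_zero.2 ht
      have h1 : ((s ^ 2 : ℚ) : K) = ((-(n : ℚ) * t ^ 2 : ℚ) : K) := by
        push_cast
        have h2 := h.sq
        linear_combination (s - t * r) * hst + t ^ 2 * h2
      have h3 : s ^ 2 = -(n : ℚ) * t ^ 2 := Rat.cast_injective h1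
      have hn' : (0 : ℚ) < n := Nat.cast_pos.2 (Nat.pos_of_ne_zero hn)
      have h4 : 0 < t ^ 2 := by positivity
      nlinarith [sq_nonneg s, mul_pos hn' h4]
    rw [ht, Rat.cast_zero, zero_mul, add_zero] at hst
    exact ⟨Rat.cast_eq_zero.1 hst, ht⟩
  have hsp : ⊤ ≤ Submodule.span ℚ (Set.range ![(1 : K), r]) := by
    intro y _
    obtain ⟨a, b, rfl⟩ := h.gen y
    have h0 : (1 : K) ∈ Submodule.span ℚ (Set.range ![(1 : K), r]) :=
      Submodule.subset_span ⟨0, rfl⟩
    have h1 : r ∈ Submodule.span ℚ (Set.range ![(1 : K), r]) := Submodule.subset_span ⟨1, rfl⟩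
    have h2 := add_mem (Submodule.smul_mem _ a h0) (Submodule.smul_mem _ b h1)
    rwa [Algebra.smul_def, Algebra.smul_def, hcast, hcast, mul_one] at h2
  let b : Module.Basis (Fin 2) ℚ K := Module.Basis.mk hli hsp
  have b0 : b 0 = 1 := by
    show Module.Basis.mk hli hsp 0 = 1
    rw [Module.Basis.mk_apply]
    rfl
  have b1 : b 1 = r := by
    show Module.Basis.mk hli hsp 1 = r
    rw [Module.Basis.mk_apply]
    rfl
  have e0 : ((u : K) + v * r) * b 0 = u • b 0 + v • b 1 := by
    rw [b0, b1, Algebra.smul_def, Algebra.smul_def, hcast, hcast]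
    ring
  have e1 : ((u : K) + v * r) * b 1 = (-(n : ℚ) * v) • b 0 + u • b 1 := by
    rw [b0, b1, Algebra.smul_def, Algebra.smul_def, hcast, hcast]
    push_cast
    linear_combination (v : K) * h.sq
  rw [Algebra.norm_eq_matrix_det b, Matrix.det_fin_two]
  simp only [Algebra.leftMulMatrix_eq_repr_mul, e0, e1, map_add, map_smul, Module.Basis.repr_self,
    Finsupp.add_apply, Finsupp.smul_apply, Finsupp.single_apply, smul_eq_mul]
  simp
  ring

theorem t_COR : S_COR := by
  intro K _ _ n r hn hK u v u' v' hα hβ hsha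
  let _ : Algebra ℚ K := DivisionRing.toRatAlgebra
  obtain ⟨e⟩ := exists_e K
  have hW : Sc (algebraMap ℚ K) 1 (E0 ℚ) (E0 K) := by
    refine ⟨one_ne_zero, ?_, ?_, ?_, ?_, ?_⟩ <;> simp
  have h1 := co_sha hW e hsha
  have h2 := co_Cc hW e rfl rfl 0 9 hα hβ
  rw [map_zero, map_ofNat, norm_QK hn.1.ne_zero hK, norm_QK hn.1.ne_zero hK] at h2
  rw [h2] at h1
  exact h1

end Pool.Agent.Run7.h424.XK
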