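import Mathlib
import Pool.Agent.Run7.h135.XK.Stm
import Pool.Agent.Run7.h424.M6.Tl
import Pool.Agent.Run7.h424.DC.Fin
import Pool.Agent.TH841.SH.Alg

/-!
# Project XK: the piece TOR

The points of `y² = x (x - 9) (x - 25)` over `ℚ(√(-n))`.
-/

set_option autoImplicit false
set_option linter.unusedSectionVars false

open scoped Classical

namespace Pool.Agent.Run7.h424.XK

open WeierstrassCurve NumberField
open Pool.Agent.TH841.SH (IsR)
open Pool.Agent.N969.P15 (Qc)
open _root_.Run7.h135.XK
open _root_.Run7.h424.M6 (EJ tors2 no4 noodd nsq)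

/-- the rational points of the twist -/
theorem tw_pts {n : ℕ} (hn : Cl n) (hq : Qc n) {X Y : ℚ}
    (h : Y ^ 2 = X * (X + 9 * n) * (X + 25 * n)) : Y = 0 := by
  have h4 : n % 4 = 3 := by
    rcases hn.2 with h | h <;> omega
  have hn0 : n ≠ 0 := by omega
  have hfin : Finite (EJ n).toAffine.Point := by
    refine ((_root_.Run7.h424.DC.iffF hn.1 hn.2 (W := EJ n) ?_).2 hq).1
    push_cast
    rfl
  have hns := _root_.Run7.h424.M6.ns hn0 h
  have h5 : (Affine.Point.some X Y hns : (EJ n).toAffine.Point) + Affine.Point.some X Y hns = 0 :=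
    tors2 (no4 h4) (fun R m hm hR => noodd h4 R hm hR) _ (isOfFinAddOrder_of_finite _)
  have hR : IsR (EJ n) 0 (-9 * n) (-25 * n) := by
    refine ⟨rfl, ?_, rfl, ?_, ?_⟩
    · show (34 * n : ℚ) = _
      ring
    · show (225 * (n : ℚ) ^ 2) = _
      ring
    · show (0 : ℚ) = _
      ring
  exact (hR.add_self two_ne_zero hns).1 h5

section quad

variable {K : Type} [Field K] [CharZero K] {n : ℕ} {r : K}

theorem indep (hn : n ≠ 0) (h : QK K n r) {s t : ℚ} (hst : (s : K) + t * r = 0) :
    s = 0 ∧ t = 0 := by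
  have ht : t = 0 := by
    by_contra ht
    have h1 : ((s ^ 2 : ℚ) : K) = ((-(n : ℚ) * t ^ 2 : ℚ) : K) := by
      push_cast
      have h2 := h.sq
      linear_combination (s - t * r) * hst + t ^ 2 * h2
    have h3 : s ^ 2 = -(n : ℚ) * t ^ 2 := Rat.cast_injective h1
    have hn' : (0 : ℚ) < n := Nat.cast_pos.2 (Nat.pos_of_ne_zero hn)
    have h4 : 0 < t ^ 2 := by positivity
    nlinarith [sq_nonneg s, mul_pos hn' h4]
  rw [ht, Rat.cast_zero, zero_mul, add_zero] at hst
  exact ⟨Rat.cast_eq_zero.1 hst, ht⟩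

theorem coord (hn : n ≠ 0) (h : QK K n r) {s t s' t' : ℚ}
    (hst : (s : K) + t * r = s' + t' * r) : s = s' ∧ t = t' := by
  have h1 := indep hn h (s := s - s') (t := t - t') (by
    push_cast
    linear_combination hst)
  exact ⟨sub_eq_zero.1 h1.1, sub_eq_zero.1 h1.2⟩

/-- the squares that are rational -/
theorem sq_rat (hn : n ≠ 0) (h : QK K n r) {m : ℚ} {z : K} (hm : (m : K) = z ^ 2) :
    (∃ u : ℚ, m = u ^ 2) ∨ ∃ v : ℚ, m = -(n : ℚ) * v ^ 2 := by
  obtain ⟨u, v, rfl⟩ := h.gen z
  have h1 : ((m : ℚ) : K) + ((0 : ℚ) : K) * r =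
      ((u ^ 2 - n * v ^ 2 : ℚ) : K) + ((2 * u * v : ℚ) : K) * r := by
    rw [hm]
    push_cast
    linear_combination (v : K) ^ 2 * h.sq
  obtain ⟨h2, h3⟩ := coord hn h h1
  have h4 : u = 0 ∨ v = 0 := by
    rcases mul_eq_zero.1 h3.symm with h5 | h5
    · left
      rcases mul_eq_zero.1 h5 with h6 | h6
      · norm_num at h6
      · exact h6
    · exact Or.inr h5
  rcases h4 with rfl | rfl
  · right
    exact ⟨v, by rw [h2]; ring⟩
  · left
    exact ⟨u, by rw [h2]; ring⟩

/-- the conjugation -/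
noncomputable def conj (h : QK K n r) (x : K) : K :=
  ((h.gen x).choose : K) - ((h.gen x).choose_spec.choose : K) * r

theorem conj_eq (hn : n ≠ 0) (h : QK K n r) (u v : ℚ) :
    conj h ((u : K) + v * r) = u - v * r := by
  have h1 := (h.gen ((u : K) + v * r)).choose_spec.choose_spec
  obtain ⟨h2, h3⟩ := coord hn h h1
  have h4 := congrArg (fun z : ℚ => (z : K)) h2
  have h5 := congrArg (fun z : ℚ => (z : K)) h3
  show ((h.gen ((u : K) + v * r)).choose : K) -
    ((h.gen ((u : K) + v * r)).choose_spec.choose : K) * r = u - v * r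
  linear_combination r * h5 - h4

theorem conj_rat (hn : n ≠ 0) (h : QK K n r) (u : ℚ) : conj h (u : K) = u := by
  have := conj_eq hn h u 0
  rw [Rat.cast_zero, zero_mul, add_zero, sub_zero] at this
  exact this

/-- the conjugation as a homomorphism of algebras -/
noncomputable def cj (hn : n ≠ 0) (h : QK K n r) : K →ₐ[ℚ] K where
  toFun := conj h
  map_one' := by
    have := conj_rat hn h 1
    rwa [Rat.cast_one] at this
  map_mul' x y := by
    obtain ⟨a, b, rfl⟩ := h.gen x
    obtain ⟨c, d, rfl⟩ := h.gen y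
    have e : ((a : K) + b * r) * (c + d * r) =
        ((a * c - n * b * d : ℚ) : K) + ((a * d + b * c : ℚ) : K) * r := by
      push_cast
      linear_combination (b : K) * d * h.sq
    rw [e, conj_eq hn, conj_eq hn, conj_eq hn]
    push_cast
    linear_combination -(b : K) * d * h.sq
  map_zero' := by
    have := conj_rat hn h 0
    rwa [Rat.cast_zero] at this
  map_add' x y := by
    obtain ⟨a, b, rfl⟩ := h.gen x
    obtain ⟨c, d, rfl⟩ := h.gen y
    have e : ((a : K) + b * r) + (c + d * r) = ((a + c : ℚ) : K) + ((b + d : ℚ) : K) * r := by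
      push_cast
      ring
    rw [e, conj_eq hn, conj_eq hn, conj_eq hn]
    push_cast
    ring
  commutes' x := by
    rw [eq_ratCast (algebraMap ℚ K)]
    exact conj_rat hn h x

theorem cj_eq (hn : n ≠ 0) (h : QK K n r) (u v : ℚ) :
    cj hn h ((u : K) + v * r) = u - v * r := conj_eq hn h u v

theorem cj_cj (hn : n ≠ 0) (h : QK K n r) (x : K) : cj hn h (cj hn h x) = x := by
  obtain ⟨a, b, rfl⟩ := h.gen x
  have := cj_eq hn h a (-b)
  rw [cj_eq]
  push_cast at this
  rw [sub_eq_add_neg, ← neg_mul, this]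
  ring

theorem of_fix (hn : n ≠ 0) (h : QK K n r) {x : K} (hx : cj hn h x = x) : ∃ u : ℚ, x = u := by
  obtain ⟨a, b, rfl⟩ := h.gen x
  rw [cj_eq] at hx
  have h1 := (indep hn h (s := 0) (t := 2 * b) (by
    push_cast
    linear_combination -hx)).2
  have h2 : b = 0 := by linarith
  exact ⟨a, by rw [h2]; simp⟩

theorem of_neg (hn : n ≠ 0) (h : QK K n r) {x : K} (hx : cj hn h x = -x) :
    ∃ v : ℚ, x = v * r := by
  obtain ⟨a, b, rfl⟩ := h.gen x
  rw [cj_eq] at hx
  have h1 := (indep hn h (s := 2 * a) (t := 0) (by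
    push_cast
    linear_combination hx)).1
  have h2 : a = 0 := by linarith
  exact ⟨b, by rw [h2]; simp⟩

/-- the points over `K` -/
theorem pts (hFQ : S_FQ) (hn : Cl n) (hq : Qc n) (h : QK K n r) {x y : K}
    (hxy : y ^ 2 = x * (x - 9) * (x - 25)) : x = 0 ∨ x = 9 ∨ x = 25 ∨ x = 5 ∨ x = 45 := by
  have h4 : n % 4 = 3 := by
    rcases hn.2 with h | h <;> omega
  have hn0 : n ≠ 0 := by omega
  have hnq : (0 : ℚ) < n := Nat.cast_pos.2 (Nat.pos_of_ne_zero hn0)
  have h2K : (2 : K) ≠ 0 := two_ne_zero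
  set V : WeierstrassCurve K := (E0 ℚ).baseChange K with hV
  have hR : IsR V 0 9 25 := by
    refine ⟨?_, ?_, ?_, ?_, ?_⟩
    · show algebraMap ℚ K 0 = 0
      exact map_zero _
    · show algebraMap ℚ K (-34) = _
      rw [map_neg, map_ofNat]
      norm_num
    · show algebraMap ℚ K 0 = 0
      exact map_zero _
    · show algebraMap ℚ K 225 = _
      rw [map_ofNat]
      norm_num
    · show algebraMap ℚ K 0 = _
      rw [map_zero]
      ring
  have n9 : (0 : K) ≠ 9 := by norm_num
  have n25 : (0 : K) ≠ 25 := by norm_num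
  have n925 : (9 : K) ≠ 25 := by norm_num
  have hns : V.toAffine.Nonsingular x y := hR.nons h2K n9 n25 n925 (by rw [hxy]; ring)
  by_cases hy : y = 0
  · rw [hy] at hxy
    have h1 : x * (x - 9) * (x - 25) = 0 := by rw [← hxy]; ring
    rcases mul_eq_zero.1 h1 with h2 | h2
    · rcases mul_eq_zero.1 h2 with h3 | h3
      · exact Or.inl h3
      · exact Or.inr (Or.inl (sub_eq_zero.1 h3))
    · exact Or.inr (Or.inr (Or.inl (sub_eq_zero.1 h2)))
  -- the conjugate point
  let φ : V.toAffine.Point →+ V.toAffine.Point := Affine.Point.map (W' := E0 ℚ) (cj hn0 h)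
  have hφs : ∀ (a b : K) (hab : V.toAffine.Nonsingular a b), ∃ hab',
      φ (Affine.Point.some a b hab) = Affine.Point.some (cj hn0 h a) (cj hn0 h b) hab' :=
    fun a b hab => ⟨_, rfl⟩
  have hφφ : ∀ P, φ (φ P) = P := by
    intro P
    rcases P with _ | ⟨a, b, hab⟩
    · rfl
    · obtain ⟨h1, h2⟩ := hφs a b hab
      rw [h2]
      obtain ⟨h3, h5⟩ := hφs _ _ h1
      rw [h5]
      simp only [cj_cj]
  set P : V.toAffine.Point := Affine.Point.some x y hns with hP
  have hfix : ∀ Q : V.toAffine.Point, φ Q = Q → Q = 0 ∨ ∃ (X Y : ℚ) (hh : _),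
      Q = Affine.Point.some (X : K) (Y : K) hh := by
    intro Q hQ
    rcases Q with _ | ⟨a, b, hab⟩
    · exact Or.inl rfl
    · right
      obtain ⟨h1, h2⟩ := hφs a b hab
      rw [h2] at hQ
      have h3 := (Affine.Point.some.injEq ..).mp hQ
      obtain ⟨X, rfl⟩ := of_fix hn0 h h3.1
      obtain ⟨Y, rfl⟩ := of_fix hn0 h h3.2
      exact ⟨X, Y, hab, rfl⟩
  have hRz : (P - φ P) + (P - φ P) = 0 := by
    have hm : φ (P - φ P) = -(P - φ P) := by
      rw [map_sub, hφφ]
      abel
    rcases hQ : P - φ P with _ | ⟨a, b, hab⟩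
    · exact add_zero _
    · rw [hQ] at hm
      obtain ⟨h1, h2⟩ := hφs a b hab
      rw [h2, Affine.Point.neg_some] at hm
      have h3 := (Affine.Point.some.injEq ..).mp hm
      rw [hR.negY] at h3
      obtain ⟨X, rfl⟩ := of_fix hn0 h h3.1
      obtain ⟨v, hv⟩ := of_neg hn0 h h3.2
      have h5 := (hR.eqn (X : K) b).1 hab.1
      rw [hv] at h5
      have h6 : ((-(n : ℚ) * v ^ 2 : ℚ) : K) = ((X * (X - 9) * (X - 25) : ℚ) : K) := by
        push_cast
        linear_combination h5 - (v : K) ^ 2 * h.sq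
      have h7 : -(n : ℚ) * v ^ 2 = X * (X - 9) * (X - 25) := Rat.cast_injective h6
      have h8 : ((n : ℚ) ^ 2 * v) ^ 2 =
          (-(n : ℚ) * X) * (-(n : ℚ) * X + 9 * n) * (-(n : ℚ) * X + 25 * n) := by
        linear_combination -(n : ℚ) ^ 3 * h7
      have h9 := tw_pts hn hq h8
      have h10 : v = 0 := by
        rcases mul_eq_zero.1 h9 with h11 | h11
        · exact absurd (pow_eq_zero_iff (two_ne_zero)|>.1 h11) hnq.ne'
        · exact h11
      exact (hR.add_self h2K hab).2 (by rw [hv, h10, Rat.cast_zero, zero_mul])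
  have h2P : φ (P + P) = P + P := by
    have e1 : φ (P + P) = P + P - ((P - φ P) + (P - φ P)) := by
      rw [map_add]
      abel
    rw [e1, hRz, sub_zero]
  obtain ⟨X, Y, hXY, hd, hd0⟩ := hR.dup h2K hns hy
  obtain ⟨X9, Y9, hXY9, hd9', hd9⟩ := hR.swap.dup h2K hns hy
  obtain ⟨X25, Y25, hXY25, hd25', hd25⟩ := hR.rot.rot.dup h2K hns hy
  have e9 : X9 = X := by
    have := hd9'.symm.trans hd
    exact ((Affine.Point.some.injEq ..).mp this).1
  have e25 : X25 = X := by
    have := hd25'.symm.trans hd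
    exact ((Affine.Point.some.injEq ..).mp this).1
  rw [e9] at hd9
  rw [e25] at hd25
  rcases hfix (P + P) h2P with h1 | ⟨X', Y', hh, h1⟩
  · exact absurd ((hR.add_self h2K hns).1 h1) hy
  · have h3 := (Affine.Point.some.injEq ..).mp (hd.symm.trans h1)
    have hX : X = (X' : K) := h3.1
    have h5 := (hR.eqn (X' : K) (Y' : K)).1 hh.1
    have h6 : Y' ^ 2 = X' * (X' - 9) * (X' - 25) := by
      have : ((Y' ^ 2 : ℚ) : K) = ((X' * (X' - 9) * (X' - 25) : ℚ) : K) := by
        push_cast
        linear_combination h5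
      exact Rat.cast_injective this
    have hneg : ∀ (m : ℚ) (z : K), (m : K) = z ^ 2 → m < 0 → ∃ v : ℚ, -m = n * v ^ 2 := by
      intro m z hz hm
      rcases sq_rat hn0 h hz with ⟨u, hu⟩ | ⟨v, hv⟩
      · exact absurd (sq_nonneg u) (by rw [← hu]; exact not_le.2 hm)
      · exact ⟨v, by rw [hv]; ring⟩
    have hpos : ∀ (m : ℚ) (z : K), (m : K) = z ^ 2 → 0 < m → ∃ u : ℚ, m = u ^ 2 := by
      intro m z hz hm
      rcases sq_rat hn0 h hz with ⟨u, hu⟩ | ⟨v, hv⟩
      · exact ⟨u, hu⟩
      · exact absurd (mul_nonneg hnq.le (sq_nonneg v)) (by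
          rw [not_le]
          linarith)
    have hn5 : ¬ ∃ u : ℚ, (5 : ℚ) = u ^ 2 := by
      rintro ⟨u, hu⟩
      have h7 : IsSquare ((5 : ℕ) : ℚ) := ⟨u, by push_cast; rw [hu]; ring⟩
      rw [Rat.isSquare_natCast_iff] at h7
      obtain ⟨a, ha⟩ := h7
      have h8 : a < 3 := by nlinarith
      interval_cases a <;> omega
    rcases hFQ X' Y' h6 with h7 | h7 | h7 | h7 | h7
    · -- X = 0
      exfalso
      obtain ⟨v, hv⟩ := hneg (-9) _ (by
        rw [← hd9, hX, h7]
        push_cast
        ring) (by norm_num)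
      refine nsq h4 ⟨3 / v, ?_⟩
      have hv0 : v ≠ 0 := by
        rintro rfl
        norm_num at hv
      field_simp
      linarith
    · -- X = 9
      exfalso
      obtain ⟨v, hv⟩ := hneg (-16) _ (by
        rw [← hd25, hX, h7]
        push_cast
        ring) (by norm_num)
      refine nsq h4 ⟨4 / v, ?_⟩
      have hv0 : v ≠ 0 := by
        rintro rfl
        norm_num at hv
      field_simp
      linarith
    · -- X = 25
      rw [hX, h7] at hd25
      push_cast at hd25
      rw [sub_self] at hd25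
      have h8 := pow_eq_zero_iff (two_ne_zero)|>.1 hd25.symm
      have h9 : (2 : K) * y ≠ 0 := mul_ne_zero h2K hy
      rw [div_eq_zero_iff] at h8
      have h10 := h8.resolve_right h9
      have h11 : (x - 5) * (x - 45) = 0 := by linear_combination h10
      rcases mul_eq_zero.1 h11 with h12 | h12
      · exact Or.inr (Or.inr (Or.inr (Or.inl (sub_eq_zero.1 h12))))
      · exact Or.inr (Or.inr (Or.inr (Or.inr (sub_eq_zero.1 h12))))
    · -- X = 5
      exfalso
      rw [sub_zero, hX, h7] at hd0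
      exact hn5 (hpos 5 _ (by push_cast at hd0 ⊢; exact hd0) (by norm_num))
    · -- X = 45
      exfalso
      rw [sub_zero, hX, h7] at hd0
      obtain ⟨u, hu⟩ := hpos 45 _ (by push_cast at hd0 ⊢; exact hd0) (by norm_num)
      exact hn5 ⟨u / 3, by linear_combination hu / 9⟩

end quad

/-- **TOR** -/
theorem t_TOR (hFQ : S_FQ) : S_TOR := by
  intro K _ _ n r hn hq h
  refine ⟨fun x y hxy => pts hFQ hn hq h hxy, ?_⟩
  have hR : IsR (E0 K) 0 9 25 := by
    refine ⟨rfl, ?_, rfl, ?_, ?_⟩
    · show (-34 : K) = _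
      ring
    · show (225 : K) = _
      ring
    · show (0 : K) = _
      ring
  have n9 : (0 : K) ≠ 9 := by norm_num
  have n25 : (0 : K) ≠ 25 := by norm_num
  have n925 : (9 : K) ≠ 25 := by norm_num
  let T : Finset (K × K) := {(0, 0), (9, 0), (25, 0), (5, 20), (5, -20), (45, 180), (45, -180)}
  have hT : ∀ x y : K, (x, y) ∈ T ↔ y ^ 2 = x * (x - 9) * (x - 25) := by
    intro x y
    constructor
    · intro hxy
      simp only [T, Finset.mem_insert, Finset.mem_singleton, Prod.mk.injEq] at hxy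
      rcases hxy with ⟨rfl, rfl⟩ | ⟨rfl, rfl⟩ | ⟨rfl, rfl⟩ | ⟨rfl, rfl⟩ | ⟨rfl, rfl⟩ | ⟨rfl, rfl⟩ |
        ⟨rfl, rfl⟩ <;> norm_num
    · intro hxy
      simp only [T, Finset.mem_insert, Finset.mem_singleton, Prod.mk.injEq]
      rcases pts hFQ hn hq h hxy with rfl | rfl | rfl | rfl | rfl
      · have : y ^ 2 = 0 := by rw [hxy]; ring
        rw [pow_eq_zero_iff two_ne_zero] at this
        simp [this]
      · have : y ^ 2 = 0 := by rw [hxy]; ring
        rw [pow_eq_zero_iff two_ne_zero] at this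
        simp [this]
      · have : y ^ 2 = 0 := by rw [hxy]; ring
        rw [pow_eq_zero_iff two_ne_zero] at this
        simp [this]
      · have : (y - 20) * (y + 20) = 0 := by linear_combination hxy
        rcases mul_eq_zero.1 this with h1 | h1
        · simp [sub_eq_zero.1 h1]
        · simp [eq_neg_of_add_eq_zero_left h1]
      · have : (y - 180) * (y + 180) = 0 := by linear_combination hxy
        rcases mul_eq_zero.1 this with h1 | h1
        · simp [sub_eq_zero.1 h1]
        · simp [eq_neg_of_add_eq_zero_left h1]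
  have hc : T.card = 7 := by
    simp only [T]
    rw [Finset.card_insert_of_notMem, Finset.card_insert_of_notMem, Finset.card_insert_of_notMem,
      Finset.card_insert_of_notMem, Finset.card_insert_of_notMem, Finset.card_insert_of_notMem,
      Finset.card_singleton]
    all_goals
      simp only [Finset.mem_insert, Finset.mem_singleton, Prod.mk.injEq]
      norm_num
  have hns : ∀ p : T, (E0 K).toAffine.Nonsingular p.1.1 p.1.2 := fun p =>
    hR.nons two_ne_zero n9 n25 n925 (by rw [(hT _ _).1 p.2]; ring)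
  have hpt : ∀ (x y : K), (E0 K).toAffine.Nonsingular x y → (x, y) ∈ T := by
    intro x y hxy
    rw [hT]
    have := (hR.eqn x y).1 hxy.1
    rw [this]
    ring
  let f : Option T → (E0 K).toAffine.Point := fun o =>
    match o with
    | none => 0
    | some p => Affine.Point.some p.1.1 p.1.2 (hns p)
  have hf : Function.Bijective f := by
    constructor
    · rintro (_ | p) (_ | q) hpq
      · rfl
      · exact absurd hpq.symm (Affine.Point.some_ne_zero _)
      · exact absurd hpq (Affine.Point.some_ne_zero _)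
      · have h1 := (Affine.Point.some.injEq ..).mp hpq
        congr 1
        exact Subtype.ext (Prod.ext h1.1 h1.2)
    · rintro (_ | ⟨x, y, hxy⟩)
      · exact ⟨none, rfl⟩
      · exact ⟨some ⟨(x, y), hpt x y hxy⟩, rfl⟩
  rw [← Nat.card_eq_of_bijective f hf, Nat.card_eq_fintype_card, Fintype.card_option,
    Fintype.card_coe, hc]

end Pool.Agent.Run7.h424.XK
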