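import Mathlib
import Pool.Agent.Run7.h135.XK.Stm
import Pool.Agent.Run7.h424.XK.Cmp
import Pool.Agent.Run7.h424.DC.Fin

/-!
# Project XK: the piece KIL
-/

set_option autoImplicit false
set_option linter.unusedSectionVars false

attribute [-instance] DivisionRing.toRatAlgebra

namespace Pool.Agent.Run7.h424.XK

open WeierstrassCurve NumberField
open Pool.Agent.TH841.NF
open _root_.Run7.h135.XK

theorem t_KIL (hS : S_SHQ) : S_KIL := by
  intro K _ _ n r hn hq hK k x hx
  let _ : Algebra ℚ K := DivisionRing.toRatAlgebra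
  have hcast : ∀ z : ℚ, algebraMap ℚ K z = (z : K) := fun z => eq_ratCast (algebraMap ℚ K) z
  have hW : Sc (algebraMap ℚ K) 1 (E0 ℚ) (E0 K) := by
    refine ⟨one_ne_zero, ?_, ?_, ?_, ?_, ?_⟩ <;> simp
  have hn0 : (n : ℚ) ≠ 0 := Nat.cast_ne_zero.2 hn.1.ne_zero
  have hgen : IntermediateField.adjoin ℚ (Set.range fun _ : Fin 1 => r) = ⊤ := by
    rw [eq_top_iff]
    intro y _
    obtain ⟨u, v, rfl⟩ := hK.gen y
    have hr : r ∈ IntermediateField.adjoin ℚ (Set.range fun _ : Fin 1 => r) :=
      IntermediateField.subset_adjoin ℚ _ ⟨0, rfl⟩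
    rw [← hcast, ← hcast]
    exact add_mem (IntermediateField.algebraMap_mem _ u)
      (mul_mem (IntermediateField.algebraMap_mem _ v) hr)
  have h1 := sha_mq' (F := K) hW (E := E0 ℚ) rfl rfl (n := 1) (r := fun _ => r)
    (d := fun _ => -(n : ℚ)) (fun _ => by
      rw [hK.sq, hcast]
      push_cast
      ring) (fun _ => neg_ne_zero.2 hn0) hgen ?_ k x hx
  · rwa [pow_one] at h1
  · intro T j y hy
    have hT : T = ∅ ∨ T = {0} := by
      rcases T.eq_empty_or_nonempty with h | h
      · exact Or.inl h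
      · right
        obtain ⟨a, ha⟩ := h
        ext b
        have hb : b = 0 := Subsingleton.elim _ _
        have ha0 : a = 0 := Subsingleton.elim _ _
        rw [Finset.mem_singleton, hb]
        exact ⟨fun _ => rfl, fun _ => ha0 ▸ ha⟩
    rcases hT with rfl | rfl
    · have e : tw (∏ _i ∈ (∅ : Finset (Fin 1)), -(n : ℚ)) (E0 ℚ) = E0 ℚ := by
        unfold tw
        rw [Finset.prod_empty]
        norm_num [E0]
      revert y
      rw [e]
      intro y hy
      exact hS j y hy
    · have e : tw (∏ _i ∈ ({0} : Finset (Fin 1)), -(n : ℚ)) (E0 ℚ) =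
          ⟨0, ((34 * (n : ℤ) : ℤ) : ℚ), 0, ((225 * (n : ℤ) ^ 2 : ℤ) : ℚ), 0⟩ := by
        unfold tw
        rw [Finset.prod_singleton]
        simp only
        push_cast
        congr 1 <;> ring
      revert y
      rw [e]
      intro y hy
      exact sha_cmp ((_root_.Run7.h424.DC.iffF hn.1 hn.2 rfl).2 hq).2 j y hy

end Pool.Agent.Run7.h424.XK
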